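import Mathlib

namespace Pool.Agent.Results.MP_2c59d0_an.Bdd

lemma round (γ ρ : ℝ) (hγ : 0 < γ) (hγ1 : γ ≤ 1) (hρ : 1 ≤ ρ) (k T N q c w a : ℕ) (y : ℕ → ℝ)
    (hc1 : 1 ≤ γ * ρ ^ c) (hR2 : 2 ≤ ρ ^ q) (hR3 : ρ * (γ + 3 / ρ ^ q) ≤ 1) (hq : N + c ≤ q)
    (hrec : ∀ t ≤ T, y t = γ + y (t + k) / y (t + 2)) (hlo : ∀ t, γ ≤ y t)
    (hhi : ∀ t, y t ≤ (ρ ^ q) ^ N) (hT : a + 2 + (w + 2) * q * k ≤ T)
    (hB : ∀ j ≤ (w + 2) * q, ρ ^ q ≤ y (a + 4 + j * k)) :
    ∀ j ≤ w * q, ρ ^ q ≤ y (a + j * k) := by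
  set R := ρ ^ q with hR
  have hR0 : 0 < R := by linarith
  have hy0 : ∀ t, 0 < y t := fun t => hγ.trans_le (hlo t)
  have hu : ∀ j ≤ (w + 2) * q, y (a + 2 + j * k) ≤ γ + y (a + 2 + (j + 1) * k) / R := by
    intro j hj
    have hjk : j * k ≤ (w + 2) * q * k := Nat.mul_le_mul_right k hj
    rw [hrec (a + 2 + j * k) (by omega), show a + 2 + j * k + k = a + 2 + (j + 1) * k by ring,
      show a + 2 + j * k + 2 = a + 4 + j * k by ring]
    gcongr
    · exact (hy0 _).le
    · exact hB j hj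
  have h1 : ∀ t ≤ N, ∀ j, j + t ≤ (w + 2) * q + 1 → y (a + 2 + j * k) ≤ 2 + R ^ (N - t) := by
    intro t
    induction t with
    | zero => intro _ j _; have := hhi (a + 2 + j * k); simp only [Nat.sub_zero]; linarith
    | succ t ih =>
      intro ht j hj
      have e := ih (by omega) (j + 1) (by omega)
      have e2 : R ^ (N - t) = R ^ (N - (t + 1)) * R := by
        rw [← pow_succ]; congr 1; omega
      refine (hu j (by omega)).trans ?_
      have : y (a + 2 + (j + 1) * k) / R ≤ 1 + R ^ (N - (t + 1)) := by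
        rw [div_le_iff₀ hR0]; nlinarith
      linarith
  have h2 : ∀ j, j + N ≤ (w + 2) * q → ρ * y (a + 2 + j * k) ≤ 1 := by
    intro j hj
    have e := h1 N le_rfl (j + 1) (by omega)
    rw [Nat.sub_self, pow_zero] at e
    have : y (a + 2 + (j + 1) * k) / R ≤ 3 / R := by gcongr; linarith
    have := (hu j (by omega)).trans (add_le_add_right this γ)
    exact (mul_le_mul_of_nonneg_left this (by linarith)).trans hR3
  have h3 : ∀ s j, j + s + N ≤ (w + 2) * q + 1 → γ * ρ ^ s ≤ y (a + j * k) := by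
    intro s
    induction s with
    | zero => intro j _; simpa using hlo _
    | succ s ih =>
      intro j hj
      have e := ih (j + 1) (by omega)
      have hjk : j * k ≤ (w + 2) * q * k := Nat.mul_le_mul_right k (by omega)
      rw [hrec (a + j * k) (by omega), show a + j * k + k = a + (j + 1) * k by ring,
        show a + j * k + 2 = a + 2 + j * k by ring]
      have e2 := h2 j (by omega)
      have : γ * ρ ^ (s + 1) ≤ y (a + (j + 1) * k) / y (a + 2 + j * k) := by
        rw [le_div_iff₀ (hy0 _), pow_succ]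
        have : 0 ≤ γ * ρ ^ s := by positivity
        nlinarith
      linarith
  intro j hj
  have := h3 (c + q) j (by nlinarith)
  rw [pow_add, ← mul_assoc] at this
  nlinarith

lemma small (γ : ℝ) (hγ : 0 < γ) (hγ1 : γ < 1) (m : ℕ) (x : ℕ → ℝ) (hlo : ∀ n, γ ≤ x n)
    (hx : ∀ n, x (n + (2 * m + 3)) = γ + x n / x (n + (2 * m + 1))) :
    BddAbove (Set.range x) := by
  by_contra hun
  set k := 2 * m + 3 with hk
  set ρ : ℝ := 2 / (1 + γ) with hρ
  have hρ1 : 1 < ρ := by rw [hρ, lt_div_iff₀ (by linarith)]; linarith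
  have hx0 : ∀ t, 0 < x t := fun t => hγ.trans_le (hlo t)
  obtain ⟨c, hc⟩ := pow_unbounded_of_one_lt (2 / γ) hρ1
  rw [div_lt_iff₀ hγ] at hc
  have hc2 : 2 ≤ ρ ^ c := by nlinarith [pow_pos (show 0 < ρ by linarith) c]
  set N := c * (2 * m + 6) + 3 with hN
  set M0 := 1 + ∑ i ∈ Finset.range k, x i with hM0
  have hM1 : 1 ≤ M0 := by
    have : 0 ≤ ∑ i ∈ Finset.range k, x i := Finset.sum_nonneg fun i _ => (hx0 i).le
    linarith
  have hM2 : ∀ i < k, x i ≤ M0 := fun i hi => by
    have := Finset.single_le_sum (f := x) (fun j _ => (hx0 j).le) (Finset.mem_range.2 hi)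
    linarith
  obtain ⟨q0, hq0⟩ := pow_unbounded_of_one_lt (M0 + 6 / (1 - γ)) hρ1
  set q := q0 + N + c + 1 with hq
  have hqq : M0 + 6 / (1 - γ) ≤ ρ ^ q := hq0.le.trans (pow_le_pow_right₀ hρ1.le (by omega))
  have h6 : 6 ≤ 6 / (1 - γ) := by rw [le_div_iff₀ (by linarith)]; linarith
  have hR2 : 2 ≤ ρ ^ q := by linarith
  have hR3 : ρ * (γ + 3 / ρ ^ q) ≤ 1 := by
    have : 3 / ρ ^ q ≤ (1 - γ) / 2 := by
      have h1 : 6 / (1 - γ) ≤ ρ ^ q := by linarith
      rw [div_le_iff₀ (by linarith)] at h1 ⊢; linarith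
    calc ρ * (γ + 3 / ρ ^ q) ≤ ρ * ((1 + γ) / 2) := by gcongr; linarith
      _ = 1 := by rw [hρ]; field_simp
  have grow : ∀ n (G : ℝ), 1 ≤ G → x n ≤ G → x (n + k) ≤ G * ρ ^ c := by
    intro n G hG hn
    rw [hx]
    have h1 : x n / x (n + (2 * m + 1)) ≤ G / γ := by gcongr; exact hlo _
    have h2 : γ + G / γ ≤ G * ρ ^ c := by
      rw [add_div' _ _ _ hγ.ne', div_le_iff₀ hγ]; nlinarith
    linarith
  have fw : ∀ i n, n < (i + 1) * k → x n ≤ M0 * ρ ^ (c * i) := by
    intro i
    induction i with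
    | zero => intro n hn; simpa using hM2 n (by omega)
    | succ i ih =>
      intro n hn
      have hp : 1 ≤ ρ ^ (c * i) := one_le_pow₀ hρ1.le
      rw [Nat.mul_succ, pow_add, ← mul_assoc]
      by_cases h : n < k
      · exact (hM2 n h).trans (by nlinarith [mul_le_mul hM1 hp zero_le_one (by linarith)])
      · obtain ⟨n', rfl⟩ : ∃ n', n = n' + k := ⟨n - k, by omega⟩
        exact grow n' _ (by nlinarith) (ih n' (by nlinarith))
  have hex : ∃ n, ρ ^ ((N - 1) * q) < x n := by
    by_contra h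
    push Not at h
    exact hun ⟨_, by rintro _ ⟨n, rfl⟩; exact h n⟩
  classical
  set n0 := Nat.find hex with hn0
  have hH : ρ ^ ((N - 1) * q) < x n0 := Nat.find_spec hex
  have hprev : ∀ n < n0, x n ≤ ρ ^ ((N - 1) * q) := fun n hn => not_lt.1 (Nat.find_min hex hn)
  have hN1 : N - 1 = c * (2 * m + 6) + 2 := by omega
  have hq1 : 1 ≤ q := by omega
  have hE : q + c * (2 * (m + 1) * q + 4) ≤ (N - 1) * q := by rw [hN1]; nlinarith
  have hbig : (2 * (m + 1) * q + 5) * k ≤ n0 := by
    by_contra h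
    have h1 := fw (2 * (m + 1) * q + 4) n0 (not_le.1 h)
    have h2 : M0 * ρ ^ (c * (2 * (m + 1) * q + 4)) ≤ ρ ^ ((N - 1) * q) := by
      refine le_trans ?_ (pow_le_pow_right₀ hρ1.le hE)
      rw [pow_add]; gcongr; linarith
    linarith
  have hkn : k ≤ n0 := le_trans (Nat.le_mul_of_pos_left k (by omega)) hbig
  have hrecord : ∀ n ≤ n0, x n ≤ x n0 := fun n hn => by
    rcases hn.eq_or_lt with h | h
    · rw [h]
    · exact (hprev n h).trans hH.le
  have hHN : x n0 ≤ (ρ ^ q) ^ N := by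
    have := grow (n0 - k) _ (one_le_pow₀ hρ1.le) (hprev (n0 - k) (by omega))
    rw [Nat.sub_add_cancel hkn, ← pow_add] at this
    rw [← pow_mul]
    refine this.trans (pow_le_pow_right₀ hρ1.le ?_)
    have : N = (N - 1) + 1 := by omega
    rw [this, Nat.add_sub_cancel]; nlinarith
  set y : ℕ → ℝ := fun t => x (n0 - t) with hy
  have hrec : ∀ t ≤ n0 - k, y t = γ + y (t + k) / y (t + 2) := by
    intro t ht
    simp only [hy]
    have := hx (n0 - (t + k))
    rw [show n0 - (t + k) + k = n0 - t by omega,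
      show n0 - (t + k) + (2 * m + 1) = n0 - (t + 2) by omega] at this
    exact this
  have hyhi : ∀ t, y t ≤ x n0 := fun t => hrecord _ (Nat.sub_le _ _)
  have hT : (2 * (m + 1) * q + 4) * k ≤ n0 - k := by
    have : (2 * (m + 1) * q + 5) * k = (2 * (m + 1) * q + 4) * k + k := by ring
    omega
  -- the record class stays large
  have base : ∀ j ≤ 2 * (m + 1) * q + 3, ρ ^ ((N - 1) * q - c * j) ≤ y (j * k) := by
    intro j
    induction j with
    | zero => intro _; simpa [hy] using hH.le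
    | succ j ih =>
      intro hj
      have e := ih (by omega)
      have hjk : j * k ≤ (2 * (m + 1) * q + 4) * k := Nat.mul_le_mul_right k (by omega)
      have e2 := hrec (j * k) (by omega)
      have hcj : c * (j + 1) ≤ c * (2 * (m + 1) * q + 4) := Nat.mul_le_mul_left c (by omega)
      have e3 : ρ ^ ((N - 1) * q - c * j) = ρ ^ ((N - 1) * q - c * (j + 1)) * ρ ^ c := by
        rw [← pow_add]; congr 1
        have : c * (j + 1) = c * j + c := by ring
        omega
      rw [show (j + 1) * k = j * k + k by ring]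
      have hp : 1 ≤ ρ ^ ((N - 1) * q - c * (j + 1)) := one_le_pow₀ hρ1.le
      have h1 : y (j * k + k) / y (j * k + 2) ≤ y (j * k + k) / γ := by
        gcongr
        · exact (hx0 _).le
        · exact hlo _
      have h2 : ρ ^ ((N - 1) * q - c * (j + 1)) * ρ ^ c - γ ≤ y (j * k + k) / γ := by linarith
      rw [le_div_iff₀ hγ] at h2
      nlinarith
  have down : ∀ r ≤ m + 1, ∀ j ≤ 2 * (m + 1 - r) * q, ρ ^ q ≤ y (2 + 4 * (m + 1 - r) + j * k) := by
    intro r
    induction r with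
    | zero =>
      intro _ j hj
      have := base (j + 2) (by simp only [Nat.sub_zero] at hj; omega)
      rw [show 2 + 4 * (m + 1 - 0) + j * k = (j + 2) * k by simp only [Nat.sub_zero, hk]; ring]
      refine le_trans (pow_le_pow_right₀ hρ1.le ?_) this
      have : c * (j + 2) ≤ c * (2 * (m + 1) * q + 4) :=
        Nat.mul_le_mul_left c (by simp only [Nat.sub_zero] at hj; omega)
      omega
    | succ r ih =>
      intro hr
      have e : m + 1 - r = m + 1 - (r + 1) + 1 := by omega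
      have hle : m + 1 - (r + 1) ≤ m := by omega
      generalize m + 1 - (r + 1) = s at e hle
      refine round γ ρ hγ hγ1.le hρ1.le k (n0 - k) N q c (2 * s) (2 + 4 * s) y (by linarith) hR2 hR3
        (by omega) hrec (fun t => hlo _) (fun t => (hyhi t).trans hHN) ?_ ?_
      · refine le_trans ?_ hT
        have : (2 * s + 2) * q * k ≤ 2 * (m + 1) * q * k := by gcongr; omega
        have : (2 * (m + 1) * q + 4) * k = 2 * (m + 1) * q * k + 4 * k := by ring
        omega
      · intro j hj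
        have := ih (by omega) j (by rw [e]; exact hj)
        rwa [e, show 2 + 4 * (s + 1) + j * k = 2 + 4 * s + 4 + j * k by ring] at this
  have h2 := down (m + 1) le_rfl 0 (Nat.zero_le _)
  simp only [Nat.sub_self, mul_zero, add_zero, zero_mul] at h2
  have h0 := hrec 0 (Nat.zero_le _)
  simp only [zero_add] at h0
  have h3 : y k / y 2 ≤ x n0 / 2 := by
    gcongr
    · exact (hx0 _).le
    · exact hyhi _
    · linarith
  have h4 : y 0 = x n0 := by simp [hy]
  have h5 : ρ ^ q ≤ ρ ^ ((N - 1) * q) := pow_le_pow_right₀ hρ1.le (by omega)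
  linarith

lemma large (γ : ℝ) (hγ : 1 ≤ γ) (m : ℕ) (x : ℕ → ℝ) (hlo : ∀ n, γ < x n)
    (hx : ∀ n, x (n + (2 * m + 3)) = γ + x n / x (n + (2 * m + 1))) :
    BddAbove (Set.range x) := by
  obtain ⟨d, hd0, hd1, hd⟩ : ∃ d : ℝ, 0 < d ∧ d ≤ 1 ∧
      ∀ i < 2 * m + 3, γ + d ≤ x i ∧ x i ≤ (γ + d) / d := by
    have : ∀ᶠ d in nhdsWithin (0 : ℝ) (Set.Ioi 0), 0 < d ∧ d ≤ 1 ∧
        ∀ i ∈ Finset.range (2 * m + 3), d ≤ x i - γ ∧ d ≤ 1 / x i := by
      refine Filter.Eventually.and self_mem_nhdsWithin (Filter.Eventually.and ?_ ?_)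
      · exact nhdsWithin_le_nhds (eventually_le_nhds one_pos)
      · rw [Filter.eventually_all_finset]
        intro i _
        have := hlo i
        exact nhdsWithin_le_nhds ((eventually_le_nhds (by linarith)).and
          (eventually_le_nhds (one_div_pos.2 (by linarith))))
    obtain ⟨d, h0, h1, h2⟩ := this.exists
    refine ⟨d, h0, h1, fun i hi => ?_⟩
    obtain ⟨a, b⟩ := h2 i (Finset.mem_range.2 hi)
    have := hlo i
    rw [le_div_iff₀ (by linarith)] at b
    exact ⟨by linarith, by rw [le_div_iff₀ h0]; linarith⟩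
  have key : ∀ n, γ + d ≤ x n ∧ x n ≤ (γ + d) / d := by
    intro n
    induction n using Nat.strong_induction_on with
    | _ n ih =>
      by_cases hn : n < 2 * m + 3
      · exact hd n hn
      · obtain ⟨n', rfl⟩ : ∃ n', n = n' + (2 * m + 3) := ⟨n - (2 * m + 3), by omega⟩
        obtain ⟨a1, a2⟩ := ih n' (by omega)
        obtain ⟨b1, b2⟩ := ih (n' + (2 * m + 1)) (by omega)
        have hL : 0 < γ + d := by linarith
        rw [hx]
        constructor
        · have : (γ + d) / ((γ + d) / d) ≤ x n' / x (n' + (2 * m + 1)) := by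
            gcongr <;> linarith
          rw [div_div_cancel₀ hL.ne'] at this
          linarith
        · have : x n' / x (n' + (2 * m + 1)) ≤ (γ + d) / d / (γ + d) := by gcongr
          rw [div_right_comm, div_self hL.ne'] at this
          have h2 : γ + 1 / d ≤ (γ + d) / d := by
            rw [add_div' _ _ _ hd0.ne', div_le_div_iff_of_pos_right hd0]; nlinarith
          linarith
  exact ⟨_, by rintro _ ⟨n, rfl⟩; exact (key n).2⟩

theorem result : ∀ (γ : ℝ) (m : ℕ) (x : ℕ → ℝ), 0 < γ → 1 ≤ m → (∀ i ≤ 2 * m, 0 < x i) →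
    (∀ n, x (n + 2 * m + 1) = γ + x n / x (n + 2 * m - 1)) → BddAbove (Set.range x) := by
  intro γ m x hγ hm h0 hx
  obtain ⟨m, rfl⟩ : ∃ m', m = m' + 1 := ⟨m - 1, by omega⟩
  have hx' : ∀ n, x (n + (2 * m + 3)) = γ + x n / x (n + (2 * m + 1)) := fun n => hx n
  have hpos : ∀ n, 0 < x n := by
    intro n
    induction n using Nat.strong_induction_on with
    | _ n ih =>
      by_cases hn : n < 2 * m + 3
      · exact h0 n (by omega)
      · obtain ⟨n', rfl⟩ : ∃ n', n = n' + (2 * m + 3) := ⟨n - (2 * m + 3), by omega⟩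
        have := ih n' (by omega)
        have := ih (n' + (2 * m + 1)) (by omega)
        rw [hx']; positivity
  have hlo : ∀ n, γ < x (n + (2 * m + 3)) := fun n => by
    rw [hx']; exact lt_add_of_pos_right _ (div_pos (hpos _) (hpos _))
  have hrec : ∀ n, x (n + (2 * m + 3) + (2 * m + 3)) =
      γ + x (n + (2 * m + 3)) / x (n + (2 * m + 1) + (2 * m + 3)) := fun n => by
    rw [hx', add_right_comm n (2 * m + 3)]
  obtain ⟨C, hC⟩ : BddAbove (Set.range fun n => x (n + (2 * m + 3))) := by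
    rcases lt_or_ge γ 1 with h | h
    · exact small γ hγ h m _ (fun n => (hlo n).le) hrec
    · exact large γ h m _ hlo hrec
  refine ⟨max C (∑ i ∈ Finset.range (2 * m + 3), x i), ?_⟩
  rintro _ ⟨n, rfl⟩
  by_cases hn : n < 2 * m + 3
  · exact le_max_of_le_right
      (Finset.single_le_sum (f := x) (fun j _ => (hpos j).le) (Finset.mem_range.2 hn))
  · obtain ⟨n', rfl⟩ : ∃ n', n = n' + (2 * m + 3) := ⟨n - (2 * m + 3), by omega⟩
    exact le_max_of_le_left (hC ⟨n', rfl⟩)

end Pool.Agent.Results.MP_2c59d0_an.Bdd
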